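import Pool.Agent.MP_55e428_gt.H17.Cls

/-! For an Eberlein or Corson compact space, all sigma-compact continuous images of the function
space are cosmic exactly when the compact space is metrizable. -/

namespace Pool.Agent.Results.MP_55e428_gt.Classify

open Pool.Agent.MP_55e428_gt.H17

/-- homeomorphic to a weakly compact subset of a real Banach space -/
def IsEberlein (K : Type) [TopologicalSpace K] : Prop :=
  ∃ (E : Type) (_ : NormedAddCommGroup E) (_ : NormedSpace ℝ E), CompleteSpace E ∧
    ∃ S : Set (WeakSpace ℝ E), IsCompact S ∧ Nonempty (K ≃ₜ S)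

/-- homeomorphic to a compact set of countably supported points of a product of lines -/
def IsCorson (K : Type) [TopologicalSpace K] : Prop :=
  ∃ (Γ : Type) (S : Set (Γ → ℝ)), IsCompact S ∧ (∀ x ∈ S, {γ | x γ ≠ 0}.Countable) ∧
    Nonempty (K ≃ₜ S)

/-- having a countable network -/
def IsCosmic (Y : Type) [TopologicalSpace Y] : Prop :=
  ∃ N : Set (Set Y), N.Countable ∧
    ∀ (y : Y) (U : Set Y), IsOpen U → y ∈ U → ∃ A ∈ N, y ∈ A ∧ A ⊆ U

theorem result (K : Type) [TopologicalSpace K] (hK : IsEberlein K ∨ IsCorson K) :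
    (∀ (Y : Type) [TopologicalSpace Y] [T35Space Y] [SigmaCompactSpace Y]
      (φ : {f : K → ℝ // Continuous f} → Y), Continuous φ → Function.Surjective φ → IsCosmic Y) ↔
    TopologicalSpace.MetrizableSpace K := by
  obtain ⟨hc, hP⟩ : CompactSpace K ∧ (¬TopologicalSpace.MetrizableSpace K → Pairs K) := by
    rcases hK with ⟨E, _, _, -, S, hS, ⟨e⟩⟩ | ⟨Γ, S, hS, hs, ⟨e⟩⟩
    · have := isCompact_iff_compactSpace.1 hS
      have := e.symm.compactSpace
      exact ⟨this, pairs_weak (fun a => (e a).1) (continuous_subtype_val.comp e.continuous)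
        (Subtype.val_injective.comp e.injective)⟩
    · have := isCompact_iff_compactSpace.1 hS
      have := e.symm.compactSpace
      exact ⟨this, pairs_sigma (fun a => (e a).1) (continuous_subtype_val.comp e.continuous)
        (Subtype.val_injective.comp e.injective) fun a => hs _ (e a).2⟩
  refine ⟨fun h => ?_, fun _ Y _ _ _ φ h1 h2 => net_of_metr φ h1 h2⟩
  by_contra hm
  obtain ⟨I, φ, hI, h1, h2⟩ := (hP hm).onto
  have := YY_sigma I
  obtain ⟨N, hN, hn⟩ := h (YY I) φ h1 h2
  exact YY_net N hN hn

end Pool.Agent.Results.MP_55e428_gt.Classify
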