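import Mathlib

set_option autoImplicit false

namespace Pool.Agent.Results.MP_55e428_gt.WeakL2

open Set Filter Topology

/-- the Hilbert space of square summable real families indexed by the reals -/
abbrev H : Type := lp (fun _ : ℝ => ℝ) 2

/-- the unit vectors, in the weak topology -/
noncomputable def ee (γ : ℝ) : WeakSpace ℝ H := toWeakSpace ℝ H (lp.single 2 γ (1 : ℝ))

/-- the coordinate functionals -/
noncomputable def co (δ : ℝ) (x : WeakSpace ℝ H) : ℝ :=
  inner ℝ (lp.single 2 δ (1 : ℝ) : H) ((toWeakSpace ℝ H).symm x)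

lemma co_cont (δ : ℝ) : Continuous (co δ) :=
  WeakBilin.eval_continuous (topDualPairing ℝ H).flip (innerSL ℝ (lp.single 2 δ (1 : ℝ) : H))

lemma co_ee (δ γ : ℝ) : co δ (ee γ) = if δ = γ then 1 else 0 := by
  simp only [co, ee, LinearEquiv.symm_apply_apply, lp.inner_single_left, lp.single_apply,
    Pi.single_apply]
  split_ifs <;> simp

lemma co_zero (δ : ℝ) : co δ 0 = 0 := by simp [co]

lemma tendsto_ee : Tendsto ee cofinite (𝓝 0) := by
  have hi : IsInducing fun (x : WeakSpace ℝ H) y => (topDualPairing ℝ H).flip x y := ⟨rfl⟩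
  refine hi.tendsto_nhds_iff.mpr (tendsto_pi_nhds.mpr fun f => ?_)
  obtain ⟨y, rfl⟩ := (InnerProductSpace.toDual ℝ H).surjective f
  have h := ((lp.memℓp y).summable (by norm_num)).tendsto_cofinite_zero
  have h2 := (Real.continuous_sqrt.tendsto 0).comp h
  have h3 : Tendsto (fun γ => y γ) cofinite (𝓝 0) := by
    refine tendsto_zero_iff_norm_tendsto_zero.mpr ?_
    simpa [Function.comp_def, Real.sqrt_sq_eq_abs] using h2
  have e : ∀ γ, (topDualPairing ℝ H).flip (ee γ) (InnerProductSpace.toDual ℝ H y) = y γ := by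
    intro γ
    change inner ℝ y (lp.single 2 γ (1 : ℝ) : H) = y γ
    simp [lp.inner_single_right]
  have e0 : (topDualPairing ℝ H).flip (0 : WeakSpace ℝ H) (InnerProductSpace.toDual ℝ H y) = 0 :=
    inner_zero_right (𝕜 := ℝ) y
  simp only [Function.comp_def, e, e0]
  exact h3

/-- the origin together with the unit vectors -/
def KK : Set (WeakSpace ℝ H) := insert 0 (range ee)

/-- unit vectors as points of `KK` -/
noncomputable def eK (γ : ℝ) : KK := ⟨ee γ, Or.inr ⟨γ, rfl⟩⟩

/-- the origin as a point of `KK` -/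
noncomputable def oK : KK := ⟨0, Or.inl rfl⟩

lemma tendsto_eK : Tendsto eK cofinite (𝓝 oK) := tendsto_subtype_rng.mpr tendsto_ee

/-- functions with values in `[0, n]` and fewer than `n` nonzero values -/
def Yn (n : ℕ) : Set (ℝ → ℝ) :=
  {y | (∀ γ, y γ ∈ Icc (0:ℝ) n) ∧ ∀ s : Finset ℝ, s.card = n → ∏ γ ∈ s, y γ = 0}

lemma Yn_compact (n : ℕ) : IsCompact (Yn n) := by
  have h1 : IsCompact (Set.pi univ (fun _ : ℝ => Icc (0:ℝ) n)) :=
    isCompact_univ_pi fun _ => isCompact_Icc
  have h2 : IsClosed {y : ℝ → ℝ | ∀ s : Finset ℝ, s.card = n → ∏ γ ∈ s, y γ = 0} := by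
    have : {y : ℝ → ℝ | ∀ s : Finset ℝ, s.card = n → ∏ γ ∈ s, y γ = 0} =
        ⋂ s : Finset ℝ, ⋂ (_ : s.card = n), {y : ℝ → ℝ | ∏ γ ∈ s, y γ = 0} := by
      ext y; simp
    rw [this]
    exact isClosed_iInter fun s => isClosed_iInter fun _ =>
      isClosed_eq (continuous_finsetProd _ fun γ _ => continuous_apply γ) continuous_const
  have : Yn n = Set.pi univ (fun _ : ℝ => Icc (0:ℝ) n) ∩
      {y : ℝ → ℝ | ∀ s : Finset ℝ, s.card = n → ∏ γ ∈ s, y γ = 0} := by
    ext y; simp only [Yn, Set.mem_pi, mem_inter_iff, mem_ofPred_eq, mem_univ, forall_true_left]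
  rw [this]
  exact h1.inter_right h2

/-- nonnegative finitely supported functions -/
def YY : Set (ℝ → ℝ) := ⋃ n, Yn n

lemma YY_sigma : IsSigmaCompact YY := isSigmaCompact_iUnion_of_isCompact _ Yn_compact

lemma mem_YY {y : ℝ → ℝ} : y ∈ YY ↔ (∀ γ, 0 ≤ y γ) ∧ (Function.support y).Finite := by
  classical
  constructor
  · intro hy
    obtain ⟨n, hn⟩ := mem_iUnion.1 hy
    refine ⟨fun γ => (hn.1 γ).1, ?_⟩
    by_contra hinf
    obtain ⟨s, hs, hcard⟩ := Set.Infinite.exists_subset_card_eq hinf n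
    have := hn.2 s hcard
    rw [Finset.prod_eq_zero_iff] at this
    obtain ⟨γ, hγ, h0⟩ := this
    exact (hs hγ) h0
  · rintro ⟨h0, hfin⟩
    obtain ⟨B, hB⟩ : ∃ B : ℝ, ∀ γ, y γ ≤ B := by
      refine ⟨∑ γ ∈ hfin.toFinset, y γ, fun γ => ?_⟩
      by_cases hγ : y γ = 0
      · rw [hγ]; exact Finset.sum_nonneg fun a _ => h0 a
      · exact Finset.single_le_sum (f := y) (fun a _ => h0 a) (by simpa using hγ)
    obtain ⟨m, hm⟩ := exists_nat_ge B
    refine mem_iUnion.2 ⟨max m (hfin.toFinset.card + 1), fun γ => ⟨h0 γ, ?_⟩, fun s hs => ?_⟩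
    · refine (hB γ).trans (hm.trans ?_)
      exact_mod_cast le_max_left _ _
    · have hlt : hfin.toFinset.card < s.card := by
        rw [hs]; exact lt_of_lt_of_le (Nat.lt_succ_self _) (le_max_right _ _)
      obtain ⟨γ, hγ, hγ'⟩ := Finset.exists_mem_notMem_of_card_lt_card hlt
      exact Finset.prod_eq_zero hγ (by simpa using hγ')

/-- the map, before restricting the target -/
noncomputable def phi0 (f : {f : KK → ℝ // Continuous f}) : ℝ → ℝ :=
  fun γ => max (|f.1 (eK γ) - f.1 oK| - 1) 0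

lemma phi0_mem (f : {f : KK → ℝ // Continuous f}) : phi0 f ∈ YY := by
  refine mem_YY.2 ⟨fun γ => le_max_right _ _, ?_⟩
  have h1 : Tendsto (fun γ => f.1 (eK γ)) cofinite (𝓝 (f.1 oK)) :=
    (f.2.tendsto oK).comp tendsto_eK
  have h2 : ∀ᶠ γ in cofinite, dist (f.1 (eK γ)) (f.1 oK) < 1 :=
    (Metric.tendsto_nhds.1 h1) 1 one_pos
  refine (Filter.eventually_cofinite.1 h2).subset fun γ hγ h => hγ ?_
  rw [Real.dist_eq] at h
  exact max_eq_right (by linarith)

/-- the map -/
noncomputable def phi (f : {f : KK → ℝ // Continuous f}) : YY := ⟨phi0 f, phi0_mem f⟩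

lemma phi_cont : Continuous phi := by
  refine Continuous.subtype_mk (continuous_pi fun γ => ?_) _
  have h : ∀ x : KK, Continuous fun f : {f : KK → ℝ // Continuous f} => f.1 x :=
    fun x => (continuous_apply x).comp continuous_subtype_val
  exact ((((h _).sub (h _)).abs).sub continuous_const).max continuous_const

lemma phi_surj : Function.Surjective phi := by
  classical
  rintro ⟨y, hy⟩
  obtain ⟨h0, hfin⟩ := mem_YY.1 hy
  refine ⟨⟨fun x => ∑ δ ∈ hfin.toFinset, (y δ + 1) * co δ x.1, ?_⟩, ?_⟩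
  · exact continuous_finsetSum _ fun δ _ =>
      continuous_const.mul ((co_cont δ).comp continuous_subtype_val)
  · apply Subtype.ext
    funext γ
    simp only [phi, phi0, eK, oK, co_ee, co_zero, mul_zero, Finset.sum_const_zero, sub_zero,
      mul_ite, mul_one, Finset.sum_ite_eq', Set.Finite.mem_toFinset, Function.mem_support]
    by_cases hγ : y γ = 0
    · simp [hγ]
    · have := h0 γ
      rw [if_pos hγ, abs_of_nonneg (by linarith)]
      simp [this]

lemma single_mem_YY (γ : ℝ) : (Pi.single γ 1 : ℝ → ℝ) ∈ YY := by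
  refine mem_YY.2 ⟨fun δ => ?_, (Set.finite_singleton γ).subset Pi.support_single_subset⟩
  rw [Pi.single_apply]
  split_ifs <;> simp

/-- homeomorphic to a weakly compact subset of a real Banach space -/
def IsEberlein (K : Type) [TopologicalSpace K] : Prop :=
  ∃ (E : Type) (_ : NormedAddCommGroup E) (_ : NormedSpace ℝ E), CompleteSpace E ∧
    ∃ S : Set (WeakSpace ℝ E), IsCompact S ∧ Nonempty (K ≃ₜ S)

/-- having a countable network -/
def IsCosmic (Y : Type) [TopologicalSpace Y] : Prop :=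
  ∃ N : Set (Set Y), N.Countable ∧
    ∀ (y : Y) (U : Set Y), IsOpen U → y ∈ U → ∃ A ∈ N, y ∈ A ∧ A ⊆ U

theorem result :
    ∃ (K Y : Type) (_ : TopologicalSpace K) (_ : TopologicalSpace Y),
      IsEberlein K ∧ T35Space Y ∧ SigmaCompactSpace Y ∧
        (∃ φ : {f : K → ℝ // Continuous f} → Y, Continuous φ ∧ Function.Surjective φ) ∧
        ¬ IsCosmic Y := by
  refine ⟨KK, YY, inferInstance, inferInstance, ⟨H, inferInstance, inferInstance, inferInstance,
    KK, tendsto_ee.isCompact_insert_range_of_cofinite, ⟨Homeomorph.refl _⟩⟩, inferInstance,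
    isSigmaCompact_iff_sigmaCompactSpace.1 YY_sigma, ⟨phi, phi_cont, phi_surj⟩, ?_⟩
  rintro ⟨N, hN, hnet⟩
  have key : ∀ γ : ℝ, ∃ A ∈ N, (⟨Pi.single γ 1, single_mem_YY γ⟩ : YY) ∈ A ∧
      A ⊆ {y : YY | 1 / 2 < y.1 γ} := by
    intro γ
    refine hnet _ _ (isOpen_lt continuous_const
      ((continuous_apply γ).comp continuous_subtype_val)) ?_
    simp; norm_num
  choose A hAN hA1 hA2 using key
  have hinj : Function.Injective A := by
    intro γ δ hγδ
    have h1 := hA2 γ (hγδ ▸ hA1 δ)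
    by_contra hne
    simp [hne] at h1
    norm_num at h1
  have hc : (univ : Set ℝ).Countable :=
    Set.MapsTo.countable_of_injOn (f := A) (fun γ _ => hAN γ) hinj.injOn hN
  exact Cardinal.not_countable_real hc

end Pool.Agent.Results.MP_55e428_gt.WeakL2
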